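import Mathlib

/-!
# Radius of convergence of q-deformed real numbers

For every real number `x` the radius of convergence of the q-deformed real number `[x]_q` is at
least `(3 - √5) / 2`.
-/

namespace Pool.Agent.Results.MP_b13893_an.RadiusBound

open Filter Topology

/-- `ncf N c` is the value of the finite negative continued fraction `[[c 0, c 1, …, c N]]`. -/
noncomputable def ncf : ℕ → (ℕ → ℕ) → ℝ
  | 0, c => c 0
  | N + 1, c => c 0 - 1 / ncf N (fun n => c (n + 1))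

/-- `c` is the sequence of digits of the infinite negative continued fraction expansion of `x`:
all digits are at least `2` and the truncations converge to `x`. -/
def IsExpansion (x : ℝ) (c : ℕ → ℕ) : Prop :=
  (∀ n, 2 ≤ c n) ∧ Tendsto (fun N => ncf N c) atTop (𝓝 x)

/-- The variable `q` of the field of Laurent series over `ℚ`. -/
noncomputable def q : LaurentSeries ℚ := HahnSeries.single 1 1

/-- The q-integer `[n]_q`. -/
noncomputable def qInt (n : ℕ) : LaurentSeries ℚ := (1 - q ^ n) / (1 - q)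

/-- `qTrunc N c` is the q-deformed truncation `[[c 0, c 1, …, c N]]_q`. -/
noncomputable def qTrunc : ℕ → (ℕ → ℕ) → LaurentSeries ℚ
  | 0, c => qInt (c 0)
  | N + 1, c => qInt (c 0) - q ^ (c 0 - 1) / qTrunc N (fun n => c (n + 1))

/-- `Q` is the map `x ↦ [x]_q`: for `x ≥ 1` with negative continued fraction digits `c` the
q-deformed truncations converge q-adically to `Q x` (every coefficient is eventually constant with
the coefficient of `Q x` as its value), and `[x - 1]_q = q⁻¹ ([x]_q - 1)` for all real `x`. -/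
structure IsQDeformation (Q : ℝ → LaurentSeries ℚ) : Prop where
  expansion : ∀ x : ℝ, 1 ≤ x → ∀ c : ℕ → ℕ, IsExpansion x c →
    ∀ k : ℤ, ∀ᶠ N in atTop, (qTrunc N c).coeff k = (Q x).coeff k
  shift : ∀ x : ℝ, Q (x - 1) = q⁻¹ * (Q x - 1)

/-- The radius of convergence (in the complex plane) of a Laurent series with rational
coefficients and finitely many negative powers; the principal part is dropped. -/
noncomputable def radius (φ : LaurentSeries ℚ) : ENNReal :=
  (FormalMultilinearSeries.ofScalars ℂ (fun n : ℕ => ((φ.coeff (n : ℤ) : ℚ) : ℂ))).radius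

/-! ### Real continued fractions -/

lemma one_lt_ncf (N : ℕ) : ∀ c : ℕ → ℕ, (∀ n, 2 ≤ c n) → 1 < ncf N c := by
  induction N with
  | zero =>
    intro c hc
    have h : (2 : ℝ) ≤ c 0 := by exact_mod_cast hc 0
    simp only [ncf]
    linarith
  | succ N ih =>
    intro c hc
    have h : (2 : ℝ) ≤ c 0 := by exact_mod_cast hc 0
    have h1 := ih (fun n => c (n + 1)) (fun n => hc (n + 1))
    have h2 : 1 / ncf N (fun n => c (n + 1)) < 1 := by
      rw [div_lt_one (by linarith)]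
      exact h1
    simp only [ncf]
    linarith

lemma ncf_succ_lt (N : ℕ) : ∀ c : ℕ → ℕ, (∀ n, 2 ≤ c n) → ncf (N + 1) c < ncf N c := by
  induction N with
  | zero =>
    intro c hc
    have h1 := one_lt_ncf 0 (fun n => c (n + 1)) (fun n => hc (n + 1))
    have h2 : 0 < 1 / ncf 0 (fun n => c (n + 1)) := by positivity
    show (c 0 : ℝ) - 1 / ncf 0 (fun n => c (n + 1)) < c 0
    linarith
  | succ N ih =>
    intro c hc
    have h1 := ih (fun n => c (n + 1)) (fun n => hc (n + 1))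
    have h2 := one_lt_ncf (N + 1) (fun n => c (n + 1)) (fun n => hc (n + 1))
    have h3 : 1 / ncf N (fun n => c (n + 1)) < 1 / ncf (N + 1) (fun n => c (n + 1)) :=
      one_div_lt_one_div_of_lt (by linarith) h1
    show (c 0 : ℝ) - 1 / ncf (N + 1) (fun n => c (n + 1)) < c 0 - 1 / ncf N (fun n => c (n + 1))
    linarith

/-- The shift map of the negative continued fraction. -/
noncomputable def nx (x : ℝ) : ℝ := 1 / (⌊x⌋₊ + 1 - x)

/-- The digits of `x`. -/
noncomputable def dig (x : ℝ) (n : ℕ) : ℕ := ⌊nx^[n] x⌋₊ + 1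

lemma dig_zero (x : ℝ) : dig x 0 = ⌊x⌋₊ + 1 := rfl

lemma dig_succ (x : ℝ) (n : ℕ) : dig x (n + 1) = dig (nx x) n := by
  simp only [dig, Function.iterate_succ_apply]

lemma one_le_nx {x : ℝ} (hx : 1 ≤ x) : 1 ≤ nx x := by
  have h1 : x < ⌊x⌋₊ + 1 := Nat.lt_floor_add_one x
  have h2 : (⌊x⌋₊ : ℝ) ≤ x := Nat.floor_le (by linarith)
  rw [nx, le_div_iff₀ (by linarith)]
  linarith

lemma two_le_dig {x : ℝ} (hx : 1 ≤ x) (n : ℕ) : 2 ≤ dig x n := by
  have h : ∀ n, ∀ y : ℝ, 1 ≤ y → 1 ≤ nx^[n] y := by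
    intro n
    induction n with
    | zero => intro y hy; exact hy
    | succ n ih => intro y hy; rw [Function.iterate_succ_apply]; exact ih _ (one_le_nx hy)
  have h1 := h n x hx
  have h2 : 1 ≤ ⌊nx^[n] x⌋₊ := by
    rw [Nat.one_le_floor_iff]
    exact h1
  unfold dig
  omega

lemma ncf_dig (N : ℕ) : ∀ x : ℝ, 1 ≤ x →
    0 ≤ ncf N (dig x) - x ∧ ncf N (dig x) - x ≤ 1 / ((N : ℝ) + 1) := by
  induction N with
  | zero =>
    intro x hx
    have h1 : x < ⌊x⌋₊ + 1 := Nat.lt_floor_add_one x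
    have h2 : (⌊x⌋₊ : ℝ) ≤ x := Nat.floor_le (by linarith)
    simp only [ncf, dig_zero]
    push_cast
    constructor
    · linarith
    · norm_num
      linarith
  | succ N ih =>
    intro x hx
    have h1 : x < ⌊x⌋₊ + 1 := Nat.lt_floor_add_one x
    have h2 : (⌊x⌋₊ : ℝ) ≤ x := Nat.floor_le (by linarith)
    obtain ⟨h3, h4⟩ := ih (nx x) (one_le_nx hx)
    have h5 := one_le_nx hx
    have hs : (fun n => dig x (n + 1)) = dig (nx x) := by
      funext n; exact dig_succ x n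
    have hx' : x = (dig x 0 : ℝ) - 1 / nx x := by
      rw [dig_zero, nx]
      push_cast
      rw [one_div_one_div]
      ring
    set t := ncf N (dig (nx x)) with ht
    set y := nx x with hy
    have hncf : ncf (N + 1) (dig x) = (dig x 0 : ℝ) - 1 / t := by
      simp only [ncf, hs]
      rfl
    have hdiff : ncf (N + 1) (dig x) - x = 1 / y - 1 / t := by
      rw [hncf]
      linarith
    rw [hdiff]
    have hy0 : 0 < y := by linarith
    have ht0 : 0 < t := by linarith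
    have hNpos : (0 : ℝ) < (N : ℝ) + 1 := by positivity
    constructor
    · have := one_div_le_one_div_of_le hy0 (by linarith : y ≤ t)
      linarith
    · have e1 : 1 / y - 1 / t = (t - y) / (y * t) := by
        field_simp
      rw [e1]
      push_cast
      rw [div_le_div_iff₀ (by positivity) (by positivity)]
      have h4' : (t - y) * ((N : ℝ) + 1) ≤ 1 := by
        rw [le_div_iff₀ hNpos] at h4
        exact h4
      have h6 : 1 + (t - y) ≤ y * t := by nlinarith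
      nlinarith

lemma isExpansion_dig {x : ℝ} (hx : 1 ≤ x) : IsExpansion x (dig x) := by
  refine ⟨two_le_dig hx, ?_⟩
  have h1 : Tendsto (fun N : ℕ => ncf N (dig x) - x) atTop (𝓝 0) :=
    squeeze_zero (fun N => (ncf_dig N x hx).1) (fun N => (ncf_dig N x hx).2)
      tendsto_one_div_add_atTop_nhds_zero_nat
  have h2 := h1.add_const x
  simpa using h2

lemma IsExpansion.step {x : ℝ} {c : ℕ → ℕ} (h : IsExpansion x c) :
    1 ≤ x ∧ c 0 = ⌊x⌋₊ + 1 ∧ IsExpansion (nx x) (fun n => c (n + 1)) := by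
  obtain ⟨hc, ht⟩ := h
  have hc' : ∀ n, 2 ≤ (fun n => c (n + 1)) n := fun n => hc (n + 1)
  have hanti : Antitone (fun N => ncf N (fun n => c (n + 1))) :=
    antitone_nat_of_succ_le (fun N => (ncf_succ_lt N _ hc').le)
  have hbdd : BddBelow (Set.range (fun N => ncf N (fun n => c (n + 1)))) := by
    refine ⟨1, ?_⟩
    rintro _ ⟨N, rfl⟩
    exact (one_lt_ncf N _ hc').le
  have hy := tendsto_atTop_ciInf hanti hbdd
  set y := ⨅ N, ncf N (fun n => c (n + 1)) with hydef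
  have hy1 : 1 ≤ y := ge_of_tendsto' hy (fun N => (one_lt_ncf N _ hc').le)
  have hx1 : Tendsto (fun N => ncf (N + 1) c) atTop (𝓝 x) := ht.comp (tendsto_add_atTop_nat 1)
  have hx2 : Tendsto (fun N => ncf (N + 1) c) atTop (𝓝 ((c 0 : ℝ) - 1 / y)) := by
    simp only [ncf]
    exact tendsto_const_nhds.sub (tendsto_const_nhds.div hy (by linarith))
  have hxy : x = (c 0 : ℝ) - 1 / y := tendsto_nhds_unique hx1 hx2
  have hyinv : 1 / y ≤ 1 := by rw [div_le_one (by linarith)]; exact hy1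
  have hyinv0 : 0 < 1 / y := by positivity
  have hc0 : (2 : ℝ) ≤ c 0 := by exact_mod_cast hc 0
  have hfl : ⌊x⌋₊ = c 0 - 1 := by
    rw [Nat.floor_eq_iff (by linarith)]
    have : ((c 0 - 1 : ℕ) : ℝ) = (c 0 : ℝ) - 1 := by
      rw [Nat.cast_sub (by have := hc 0; omega)]; simp
    rw [this]
    constructor <;> linarith
  have hc0' : c 0 = ⌊x⌋₊ + 1 := by
    have := hc 0
    omega
  refine ⟨by linarith, hc0', hc', ?_⟩
  have hnx : nx x = y := by
    rw [nx]
    have h1 : ((⌊x⌋₊ : ℝ) + 1) = c 0 := by rw [hc0']; push_cast; ring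
    rw [h1, hxy]
    have : (c 0 : ℝ) - ((c 0 : ℝ) - 1 / y) = 1 / y := by ring
    rw [this, one_div_one_div]
  rw [hnx]
  exact hy

lemma IsExpansion.eq_dig {c : ℕ → ℕ} {x : ℝ} (h : IsExpansion x c) : c = dig x := by
  have key : ∀ n : ℕ, ∀ c : ℕ → ℕ, ∀ x : ℝ, IsExpansion x c → c n = dig x n := by
    intro n
    induction n with
    | zero => intro c x h; exact h.step.2.1
    | succ n ih =>
      intro c x h
      have h1 := ih _ _ h.step.2.2
      rw [dig_succ]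
      exact h1
  funext n
  exact key n c x h

/-! ### Power series -/

open PowerSeries

/-- The q-integer as a power series. -/
noncomputable def pInt (n : ℕ) : PowerSeries ℚ := ∑ i ∈ Finset.range n, PowerSeries.X ^ i

/-- The q-deformed truncation as a power series. -/
noncomputable def pTrunc : ℕ → (ℕ → ℕ) → PowerSeries ℚ
  | 0, c => pInt (c 0)
  | N + 1, c => pInt (c 0) - PowerSeries.X ^ (c 0 - 1) * (pTrunc N (fun n => c (n + 1)))⁻¹

lemma constCoeff_pInt {n : ℕ} (hn : 1 ≤ n) : PowerSeries.constantCoeff (pInt n) = 1 := by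
  obtain ⟨m, rfl⟩ : ∃ m, n = m + 1 := ⟨n - 1, by omega⟩
  rw [pInt, Finset.sum_range_succ']
  simp

lemma constCoeff_pTrunc (N : ℕ) (c : ℕ → ℕ) (hc : ∀ n, 2 ≤ c n) :
    PowerSeries.constantCoeff (pTrunc N c) = 1 := by
  cases N with
  | zero => exact constCoeff_pInt (by have := hc 0; omega)
  | succ N =>
    have h0 : c 0 - 1 ≠ 0 := by have := hc 0; omega
    simp only [pTrunc, map_sub, map_mul, map_pow, PowerSeries.constantCoeff_X]
    rw [zero_pow h0, constCoeff_pInt (by have := hc 0; omega)]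
    simp

lemma pTrunc_mul_inv (N : ℕ) (c : ℕ → ℕ) (hc : ∀ n, 2 ≤ c n) :
    pTrunc N c * (pTrunc N c)⁻¹ = 1 :=
  PowerSeries.mul_inv_cancel _ (by rw [constCoeff_pTrunc N c hc]; exact one_ne_zero)

lemma X_pow_dvd_pTrunc (N : ℕ) : ∀ c : ℕ → ℕ, (∀ n, 2 ≤ c n) →
    (PowerSeries.X : PowerSeries ℚ) ^ (N + 1) ∣ pTrunc (N + 1) c - pTrunc N c := by
  induction N with
  | zero =>
    intro c hc
    have h0 : c 0 - 1 = (c 0 - 2) + 1 := by have := hc 0; omega
    refine ⟨-(PowerSeries.X ^ (c 0 - 2) * (pTrunc 0 (fun n => c (n + 1)))⁻¹), ?_⟩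
    simp only [pTrunc, h0]
    ring
  | succ N ih =>
    intro c hc
    have hc' : ∀ n, 2 ≤ (fun n => c (n + 1)) n := fun n => hc (n + 1)
    obtain ⟨D, hD⟩ := ih (fun n => c (n + 1)) hc'
    have h0 : c 0 - 1 = (c 0 - 2) + 1 := by have := hc 0; omega
    set A := pTrunc (N + 1) (fun n => c (n + 1)) with hA
    set B := pTrunc N (fun n => c (n + 1)) with hB
    have hAi : A * A⁻¹ = 1 := pTrunc_mul_inv _ _ hc'
    have hBi : B * B⁻¹ = 1 := pTrunc_mul_inv _ _ hc'
    have e1 : pTrunc (N + 1 + 1) c = pInt (c 0) - PowerSeries.X ^ (c 0 - 1) * A⁻¹ := rfl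
    have e2 : pTrunc (N + 1) c = pInt (c 0) - PowerSeries.X ^ (c 0 - 1) * B⁻¹ := rfl
    refine ⟨PowerSeries.X ^ (c 0 - 2) * D * A⁻¹ * B⁻¹, ?_⟩
    rw [e1, e2, h0]
    have e3 : B⁻¹ - A⁻¹ = (A - B) * A⁻¹ * B⁻¹ := by
      calc B⁻¹ - A⁻¹ = (A * A⁻¹) * B⁻¹ - (B * B⁻¹) * A⁻¹ := by rw [hAi, hBi]; ring
        _ = (A - B) * A⁻¹ * B⁻¹ := by ring
    calc pInt (c 0) - PowerSeries.X ^ (c 0 - 2 + 1) * A⁻¹
          - (pInt (c 0) - PowerSeries.X ^ (c 0 - 2 + 1) * B⁻¹)
        = PowerSeries.X ^ (c 0 - 2 + 1) * (B⁻¹ - A⁻¹) := by ring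
      _ = _ := by rw [e3, hD]; ring

lemma coeff_pTrunc_succ {k N : ℕ} (h : k ≤ N) (c : ℕ → ℕ) (hc : ∀ n, 2 ≤ c n) :
    PowerSeries.coeff k (pTrunc (N + 1) c) = PowerSeries.coeff k (pTrunc N c) := by
  have h1 := X_pow_dvd_pTrunc N c hc
  rw [PowerSeries.X_pow_dvd_iff] at h1
  have h2 := h1 k (by omega)
  rw [map_sub] at h2
  linarith

lemma coeff_pTrunc_eq {k : ℕ} (c : ℕ → ℕ) (hc : ∀ n, 2 ≤ c n) (N : ℕ) (h : k ≤ N) :
    PowerSeries.coeff k (pTrunc N c) = PowerSeries.coeff k (pTrunc k c) := by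
  induction N, h using Nat.le_induction with
  | base => rfl
  | succ N h ih => rw [coeff_pTrunc_succ h c hc, ih]

/-- The limit power series. -/
noncomputable def pLim (c : ℕ → ℕ) : PowerSeries ℚ :=
  PowerSeries.mk fun k => PowerSeries.coeff k (pTrunc k c)

/-- The inclusion of power series into Laurent series. -/
noncomputable def toL : PowerSeries ℚ →+* LaurentSeries ℚ := HahnSeries.ofPowerSeries ℤ ℚ

lemma toL_X : toL PowerSeries.X = q := by
  rw [toL, q, HahnSeries.ofPowerSeries_X]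

lemma coeff_toL (f : PowerSeries ℚ) (i : ℤ) :
    (toL f).coeff i = if i < 0 then 0 else PowerSeries.coeff i.natAbs f :=
  PowerSeries.coeff_coe f i

lemma coeff_toL_nat (f : PowerSeries ℚ) (n : ℕ) :
    (toL f).coeff (n : ℤ) = PowerSeries.coeff n f :=
  HahnSeries.ofPowerSeries_apply_coeff f n

lemma q_ne_zero : q ≠ 0 := by
  rw [q]
  exact HahnSeries.single_ne_zero one_ne_zero

lemma one_sub_q_ne_zero : (1 : LaurentSeries ℚ) - q ≠ 0 := by
  intro h
  have h1 := congrArg (fun f : LaurentSeries ℚ => f.coeff 0) h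
  simp [q, HahnSeries.coeff_single_of_ne] at h1

lemma q_inv : q⁻¹ = (HahnSeries.single (-1) 1 : LaurentSeries ℚ) := by
  apply inv_eq_of_mul_eq_one_left
  rw [q, HahnSeries.single_mul_single]
  simp

lemma coeff_q_inv_mul (φ : LaurentSeries ℚ) (k : ℤ) :
    (q⁻¹ * φ).coeff k = φ.coeff (k + 1) := by
  have h := HahnSeries.coeff_single_mul_add (r := (1 : ℚ)) (x := φ) (a := k + 1) (b := (-1 : ℤ))
  rw [q_inv]
  have e : k + 1 + -1 = k := by ring
  rw [e] at h
  rw [h, one_mul]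

lemma toL_pInt (n : ℕ) : toL (pInt n) = qInt n := by
  rw [qInt, eq_div_iff one_sub_q_ne_zero, pInt, map_sum]
  simp only [map_pow, toL_X]
  have := geom_sum_mul q n
  linear_combination -this

lemma toL_pTrunc (N : ℕ) : ∀ c : ℕ → ℕ, (∀ n, 2 ≤ c n) → toL (pTrunc N c) = qTrunc N c := by
  induction N with
  | zero => intro c _; exact toL_pInt _
  | succ N ih =>
    intro c hc
    have hc' : ∀ n, 2 ≤ (fun n => c (n + 1)) n := fun n => hc (n + 1)
    have h1 := congrArg toL (pTrunc_mul_inv N (fun n => c (n + 1)) hc')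
    rw [map_mul, map_one, ih _ hc'] at h1
    have h2 : toL ((pTrunc N (fun n => c (n + 1)))⁻¹) = (qTrunc N (fun n => c (n + 1)))⁻¹ :=
      (inv_eq_of_mul_eq_one_right h1).symm
    simp only [pTrunc, qTrunc, map_sub, map_mul, map_pow, toL_X, toL_pInt, h2, div_eq_mul_inv]

lemma eventually_coeff (c : ℕ → ℕ) (hc : ∀ n, 2 ≤ c n) (k : ℤ) :
    ∀ᶠ N in atTop, (qTrunc N c).coeff k = (toL (pLim c)).coeff k := by
  filter_upwards [eventually_ge_atTop k.natAbs] with N hN
  rw [← toL_pTrunc N c hc, coeff_toL, coeff_toL]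
  split_ifs
  · rfl
  · rw [coeff_pTrunc_eq c hc N hN, pLim, PowerSeries.coeff_mk]

/-- The map `φ ↦ q⁻¹ (φ - 1)`. -/
noncomputable def sh (φ : LaurentSeries ℚ) : LaurentSeries ℚ := q⁻¹ * (φ - 1)

lemma pInt_succ (n : ℕ) : pInt (n + 1) = 1 + PowerSeries.X * pInt n := by
  rw [pInt, pInt, Finset.sum_range_succ', Finset.mul_sum]
  rw [add_comm]
  congr 1
  apply Finset.sum_congr rfl
  intro i _
  ring

lemma dig_sub_one {y : ℝ} (hy : 2 ≤ y) :
    dig y 0 = dig (y - 1) 0 + 1 ∧ ∀ n, dig (y - 1) (n + 1) = dig y (n + 1) := by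
  have h1 : ⌊y - 1⌋₊ = ⌊y⌋₊ - 1 := Nat.floor_sub_one y
  have h2 : 2 ≤ ⌊y⌋₊ := Nat.le_floor (by exact_mod_cast hy)
  refine ⟨by rw [dig_zero, dig_zero, h1]; omega, fun n => ?_⟩
  rw [dig_succ, dig_succ]
  congr 1
  rw [nx, nx, h1]
  congr 1
  rw [Nat.cast_sub (by omega)]
  push_cast
  ring

lemma pTrunc_shift {y : ℝ} (hy : 2 ≤ y) (N : ℕ) :
    pTrunc N (dig y) = 1 + PowerSeries.X * pTrunc N (dig (y - 1)) := by
  obtain ⟨h1, h2⟩ := dig_sub_one hy
  have h3 : 2 ≤ dig (y - 1) 0 := two_le_dig (by linarith) 0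
  cases N with
  | zero => simp only [pTrunc, h1, pInt_succ]
  | succ N =>
    have h4 : (fun n => dig (y - 1) (n + 1)) = (fun n => dig y (n + 1)) := by
      funext n; exact h2 n
    simp only [pTrunc, h1, pInt_succ, h4]
    have h5 : dig (y - 1) 0 + 1 - 1 = (dig (y - 1) 0 - 1) + 1 := by omega
    rw [h5, pow_succ]
    ring

lemma pLim_shift {y : ℝ} (hy : 2 ≤ y) :
    pLim (dig y) = 1 + PowerSeries.X * pLim (dig (y - 1)) := by
  have h3 : ∀ n, 2 ≤ dig (y - 1) n := two_le_dig (by linarith)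
  ext k
  cases k with
  | zero =>
    rw [pLim, PowerSeries.coeff_mk, pTrunc_shift hy]
    simp
  | succ k =>
    rw [pLim, PowerSeries.coeff_mk, pTrunc_shift hy]
    simp only [map_add, PowerSeries.coeff_succ_X_mul]
    rw [coeff_pTrunc_eq _ h3 (k + 1) (by omega), pLim, PowerSeries.coeff_mk]

lemma toL_pLim_shift {y : ℝ} (hy : 2 ≤ y) :
    toL (pLim (dig (y - 1))) = sh (toL (pLim (dig y))) := by
  rw [pLim_shift hy, map_add, map_mul, map_one, toL_X, sh]
  have : (1 : LaurentSeries ℚ) + q * toL (pLim (dig (y - 1))) - 1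
      = q * toL (pLim (dig (y - 1))) := by ring
  rw [this, ← mul_assoc, inv_mul_cancel₀ q_ne_zero, one_mul]

/-- The q-deformation. -/
noncomputable def Qdef (x : ℝ) : LaurentSeries ℚ :=
  sh^[⌈1 - x⌉₊] (toL (pLim (dig (x + ⌈1 - x⌉₊))))

lemma Qdef_of_one_le {x : ℝ} (hx : 1 ≤ x) : Qdef x = toL (pLim (dig x)) := by
  have h : ⌈1 - x⌉₊ = 0 := Nat.ceil_eq_zero.mpr (by linarith)
  rw [Qdef, h]
  simp

lemma Qdef_shift (x : ℝ) : Qdef (x - 1) = sh (Qdef x) := by
  rcases le_or_gt 2 x with h2 | h2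
  · rw [Qdef_of_one_le (by linarith : 1 ≤ x - 1), Qdef_of_one_le (by linarith : 1 ≤ x),
      toL_pLim_shift h2]
  · have hc : ⌈1 - (x - 1)⌉₊ = ⌈1 - x⌉₊ + 1 := by
      rcases le_or_gt 1 x with h1 | h1
      · have e1 : ⌈1 - x⌉₊ = 0 := Nat.ceil_eq_zero.mpr (by linarith)
        rw [e1, Nat.ceil_eq_iff (by norm_num)]
        constructor
        · norm_num; linarith
        · norm_num; linarith
      · have e : 1 - (x - 1) = (1 - x) + 1 := by ring
        rw [e, Nat.ceil_add_one (by linarith)]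
    have e2 : x - 1 + ((⌈1 - x⌉₊ + 1 : ℕ) : ℝ) = x + (⌈1 - x⌉₊ : ℝ) := by
      push_cast
      ring
    rw [Qdef, hc, Function.iterate_succ_apply', Qdef, e2]

lemma isQDeformation_Qdef : IsQDeformation Qdef where
  expansion := by
    intro x hx c hc k
    rw [Qdef_of_one_le hx, ← hc.eq_dig]
    exact eventually_coeff c hc.1 k
  shift := Qdef_shift

lemma IsQDeformation.eq_of_one_le {Q : ℝ → LaurentSeries ℚ} (hQ : IsQDeformation Q) {x : ℝ}
    (hx : 1 ≤ x) : Q x = toL (pLim (dig x)) := by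
  ext k
  have h1 := hQ.expansion x hx _ (isExpansion_dig hx) k
  have h2 := eventually_coeff (dig x) (two_le_dig hx) k
  obtain ⟨N, hN1, hN2⟩ := (h1.and h2).exists
  rw [← hN1, hN2]

lemma IsQDeformation.unique {Q Q' : ℝ → LaurentSeries ℚ} (hQ : IsQDeformation Q)
    (hQ' : IsQDeformation Q') : Q = Q' := by
  have key : ∀ n : ℕ, ∀ x : ℝ, 1 ≤ x + n → Q x = Q' x := by
    intro n
    induction n with
    | zero =>
      intro x hx
      have hx' : 1 ≤ x := by simpa using hx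
      rw [hQ.eq_of_one_le hx', hQ'.eq_of_one_le hx']
    | succ n ih =>
      intro x hx
      have h1 := ih (x + 1) (by push_cast at hx; linarith)
      have h2 := hQ.shift (x + 1)
      have h3 := hQ'.shift (x + 1)
      have e : x + 1 - 1 = x := by ring
      rw [e] at h2 h3
      rw [h2, h3, h1]
  funext x
  obtain ⟨n, hn⟩ := exists_nat_ge (1 - x)
  exact key n x (by linarith)

/-! ### Complex analysis -/

/-- The truncation as a complex function. -/
noncomputable def fT : ℕ → (ℕ → ℕ) → ℂ → ℂ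
  | 0, c, z => ∑ i ∈ Finset.range (c 0), z ^ i
  | N + 1, c, z => ∑ i ∈ Finset.range (c 0), z ^ i - z ^ (c 0 - 1) / fT N (fun n => c (n + 1)) z

lemma sum_pow_succ (z : ℂ) (n : ℕ) :
    ∑ i ∈ Finset.range (n + 1), z ^ i = 1 + z * ∑ i ∈ Finset.range n, z ^ i := by
  rw [Finset.sum_range_succ', Finset.mul_sum, add_comm]
  congr 1
  apply Finset.sum_congr rfl
  intro i _
  ring

section bounds

variable {z : ℂ} {s : ℝ}

lemma step_T (hs0 : 0 ≤ s) (hz : ‖z‖ = s ^ 2) {w : ℂ} (hw : ‖w‖ * s ≤ 1) :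
    ‖(1 + z * w) - 1‖ ≤ s := by
  have : (1 + z * w) - 1 = z * w := by ring
  rw [this, norm_mul, hz]
  nlinarith

lemma step_D (hs0 : 0 ≤ s) (hs : s ^ 2 + s < 1) {y : ℂ} (hy : ‖y - 1‖ ≤ s) :
    ‖y‖ * s ≤ 1 := by
  have h1 : ‖y‖ ≤ 1 + s := by
    calc ‖y‖ = ‖1 + (y - 1)‖ := by congr 1; ring
      _ ≤ ‖(1 : ℂ)‖ + ‖y - 1‖ := norm_add_le _ _
      _ ≤ 1 + s := by rw [norm_one]; linarith
  nlinarith

lemma norm_ge {y : ℂ} (hy : ‖y - 1‖ ≤ s) :
    1 - s ≤ ‖y‖ := by
  have h1 : (1 : ℝ) ≤ ‖y‖ + ‖y - 1‖ := by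
    calc (1 : ℝ) = ‖y - (y - 1)‖ := by simp
      _ ≤ ‖y‖ + ‖y - 1‖ := norm_sub_le _ _
  linarith

lemma ne_zero_of (hs : s ^ 2 + s < 1) {y : ℂ} (hy : ‖y - 1‖ ≤ s) : y ≠ 0 := by
  have h1 := norm_ge hy
  have h2 : 0 < ‖y‖ := by nlinarith [sq_nonneg s]
  exact norm_pos_iff.mp h2

lemma step_U (hs0 : 0 ≤ s) (hs : s ^ 2 + s < 1) {y : ℂ} (hy : ‖y - 1‖ ≤ s) :
    ‖1 - 1 / y‖ * s ≤ 1 := by
  have hy0 := ne_zero_of hs hy
  have h1 := norm_ge hy
  have h2 : 0 < ‖y‖ := norm_pos_iff.mpr hy0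
  have h3 : 1 - 1 / y = (y - 1) / y := by field_simp
  rw [h3, norm_div, div_mul_eq_mul_div, div_le_one h2]
  nlinarith [norm_nonneg (y - 1)]

lemma bound_geom (hs0 : 0 ≤ s) (hs : s ^ 2 + s < 1) (hz : ‖z‖ = s ^ 2) (n : ℕ) :
    ‖(∑ i ∈ Finset.range (n + 1), z ^ i) - 1‖ ≤ s := by
  induction n with
  | zero => simpa using hs0
  | succ n ih =>
    rw [sum_pow_succ]
    exact step_T hs0 hz (step_D hs0 hs ih)

lemma bound_h (hs0 : 0 ≤ s) (hs : s ^ 2 + s < 1) (hz : ‖z‖ = s ^ 2) {y : ℂ} (hy : ‖y - 1‖ ≤ s)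
    (m : ℕ) : ‖(∑ i ∈ Finset.range (m + 2), z ^ i) - z ^ (m + 1) / y - 1‖ ≤ s := by
  have hrec : ∀ m : ℕ, (∑ i ∈ Finset.range (m + 2), z ^ i) - z ^ (m + 1) / y
      = 1 + z * ((∑ i ∈ Finset.range (m + 1), z ^ i) - z ^ m / y) := by
    intro m
    rw [sum_pow_succ, pow_succ]
    ring
  induction m with
  | zero =>
    rw [hrec]
    apply step_T hs0 hz
    simpa using step_U hs0 hs hy
  | succ m ih =>
    rw [hrec]
    exact step_T hs0 hz (step_D hs0 hs ih)

end bounds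

lemma bound_fT {z : ℂ} {s : ℝ} (hs0 : 0 ≤ s) (hs : s ^ 2 + s < 1) (hz : ‖z‖ = s ^ 2) (N : ℕ) :
    ∀ c : ℕ → ℕ, (∀ n, 2 ≤ c n) → ‖fT N c z - 1‖ ≤ s := by
  induction N with
  | zero =>
    intro c hc
    obtain ⟨m, hm⟩ : ∃ m, c 0 = m + 1 := ⟨c 0 - 1, by have := hc 0; omega⟩
    simp only [fT, hm]
    exact bound_geom hs0 hs hz m
  | succ N ih =>
    intro c hc
    have h1 := ih (fun n => c (n + 1)) (fun n => hc (n + 1))
    obtain ⟨m, hm⟩ : ∃ m, c 0 = m + 2 := ⟨c 0 - 2, by have := hc 0; omega⟩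
    simp only [fT, hm]
    exact bound_h hs0 hs hz h1 m

/-- The constant `(3 - √5) / 2`. -/
noncomputable def Rs : ℝ := (3 - √5) / 2

lemma sqrt_facts {t : ℝ} (ht0 : 0 ≤ t) (ht : t < Rs) : (√t) ^ 2 + √t < 1 := by
  have h5 : (√5 : ℝ) ^ 2 = 5 := Real.sq_sqrt (by norm_num)
  have h5' : 0 ≤ √(5 : ℝ) := Real.sqrt_nonneg 5
  have h5'' : 2 < √(5 : ℝ) := by
    rw [Real.lt_sqrt (by norm_num)]
    norm_num
  have h1 : (√t) ^ 2 = t := Real.sq_sqrt ht0
  have h2 := Real.sqrt_nonneg t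
  unfold Rs at ht
  by_contra hcon
  push Not at hcon
  have h3 : (√5 - 1) / 2 ≤ √t := by
    by_contra h
    push Not at h
    nlinarith
  nlinarith

lemma bound_fT' {z : ℂ} (hz : ‖z‖ < Rs) (N : ℕ) (c : ℕ → ℕ) (hc : ∀ n, 2 ≤ c n) :
    ‖fT N c z - 1‖ < 1 := by
  have h0 := norm_nonneg z
  have h1 := bound_fT (Real.sqrt_nonneg ‖z‖) (sqrt_facts h0 hz) (Real.sq_sqrt h0).symm N c hc
  have h2 := sqrt_facts h0 hz
  nlinarith [sq_nonneg (√‖z‖)]

lemma fT_ne_zero {z : ℂ} (hz : ‖z‖ < Rs) (N : ℕ) (c : ℕ → ℕ) (hc : ∀ n, 2 ≤ c n) :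
    fT N c z ≠ 0 := by
  intro h
  have := bound_fT' hz N c hc
  rw [h] at this
  simp at this

lemma Rs_pos : 0 < Rs := by
  unfold Rs
  have h5 : (√5 : ℝ) < 3 := by
    rw [Real.sqrt_lt' (by norm_num)]
    norm_num
  linarith

lemma differentiableAt_fT {z : ℂ} (hz : ‖z‖ < Rs) (N : ℕ) :
    ∀ c : ℕ → ℕ, (∀ n, 2 ≤ c n) → DifferentiableAt ℂ (fT N c) z := by
  induction N with
  | zero =>
    intro c _
    show DifferentiableAt ℂ (fun z => ∑ i ∈ Finset.range (c 0), z ^ i) z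
    fun_prop
  | succ N ih =>
    intro c hc
    have hc' : ∀ n, 2 ≤ (fun n => c (n + 1)) n := fun n => hc (n + 1)
    have h1 := ih _ hc'
    have h2 := fT_ne_zero hz N _ hc'
    show DifferentiableAt ℂ (fun z => ∑ i ∈ Finset.range (c 0), z ^ i
      - z ^ (c 0 - 1) / fT N (fun n => c (n + 1)) z) z
    fun_prop (disch := assumption)

lemma analyticAt_fT (N : ℕ) (c : ℕ → ℕ) (hc : ∀ n, 2 ≤ c n) : AnalyticAt ℂ (fT N c) 0 := by
  have h : DifferentiableOn ℂ (fT N c) (Metric.ball 0 Rs) := by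
    intro z hz
    apply (differentiableAt_fT (by simpa using hz) N c hc).differentiableWithinAt
  exact h.analyticAt (Metric.ball_mem_nhds 0 Rs_pos)

/-- The Taylor series at the origin. -/
noncomputable def tay (f : ℂ → ℂ) : PowerSeries ℂ :=
  PowerSeries.mk fun n => iteratedDeriv n f 0 / (n.factorial : ℂ)

lemma tay_mul {f g : ℂ → ℂ} (hf : AnalyticAt ℂ f 0) (hg : AnalyticAt ℂ g 0) :
    tay (f * g) = tay f * tay g := by
  ext n
  simp only [tay, PowerSeries.coeff_mk, iteratedDeriv_mul hf.contDiffAt hg.contDiffAt,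
    PowerSeries.coeff_mul, Finset.Nat.sum_antidiagonal_eq_sum_range_succ_mk, Nat.succ_eq_add_one,
    Finset.sum_div]
  refine Finset.sum_congr rfl fun i hi ↦ ?_
  have hi' : i ≤ n := by
    have := Finset.mem_range.mp hi
    omega
  rw [Nat.cast_choose _ hi']
  have h1 : (n.factorial : ℂ) ≠ 0 := by exact_mod_cast Nat.factorial_ne_zero n
  have h2 : (i.factorial : ℂ) ≠ 0 := by exact_mod_cast Nat.factorial_ne_zero i
  have h3 : ((n - i).factorial : ℂ) ≠ 0 := by exact_mod_cast Nat.factorial_ne_zero (n - i)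
  field_simp

lemma tay_add {f g : ℂ → ℂ} (hf : AnalyticAt ℂ f 0) (hg : AnalyticAt ℂ g 0) :
    tay (f + g) = tay f + tay g := by
  ext n
  simp only [tay, PowerSeries.coeff_mk, map_add]
  rw [iteratedDeriv_add hf.contDiffAt hg.contDiffAt, add_div]

lemma tay_sub {f g : ℂ → ℂ} (hf : AnalyticAt ℂ f 0) (hg : AnalyticAt ℂ g 0) :
    tay (f - g) = tay f - tay g := by
  ext n
  simp only [tay, PowerSeries.coeff_mk, map_sub]
  rw [iteratedDeriv_sub hf.contDiffAt hg.contDiffAt, sub_div]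

lemma tay_pow (m : ℕ) : tay (fun z => z ^ m) = PowerSeries.X ^ m := by
  ext n
  simp only [tay, PowerSeries.coeff_mk, iteratedDeriv_fun_pow_zero, PowerSeries.coeff_X_pow]
  split_ifs with h
  · subst h
    have h1 : (n.factorial : ℂ) ≠ 0 := by exact_mod_cast Nat.factorial_ne_zero n
    field_simp
  · simp

lemma tay_one : tay (fun _ => 1) = 1 := by
  have := tay_pow 0
  simpa using this

lemma tay_congr {f g : ℂ → ℂ} (h : f =ᶠ[𝓝 0] g) : tay f = tay g := by
  ext n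
  simp only [tay, PowerSeries.coeff_mk, h.iteratedDeriv_eq]

lemma analyticAt_sum (m : ℕ) :
    AnalyticAt ℂ (fun z : ℂ => ∑ i ∈ Finset.range m, z ^ i) 0 := by
  fun_prop

lemma tay_sum (m : ℕ) :
    tay (fun z => ∑ i ∈ Finset.range m, z ^ i) = (pInt m).map (algebraMap ℚ ℂ) := by
  induction m with
  | zero =>
    ext n
    simp [tay, pInt]
  | succ m ih =>
    have h1 : (fun z : ℂ => ∑ i ∈ Finset.range (m + 1), z ^ i)
        = (fun z : ℂ => ∑ i ∈ Finset.range m, z ^ i) + (fun z => z ^ m) := by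
      funext z
      rw [Finset.sum_range_succ]
      rfl
    rw [h1, tay_add (analyticAt_sum m) (by fun_prop), ih, tay_pow]
    rw [pInt, pInt, Finset.sum_range_succ, map_add, map_pow, PowerSeries.map_X]

lemma tay_fT (N : ℕ) : ∀ c : ℕ → ℕ, (∀ n, 2 ≤ c n) →
    tay (fT N c) = (pTrunc N c).map (algebraMap ℚ ℂ) := by
  induction N with
  | zero =>
    intro c _
    exact tay_sum (c 0)
  | succ N ih =>
    intro c hc
    have hc' : ∀ n, 2 ≤ (fun n => c (n + 1)) n := fun n => hc (n + 1)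
    set g := fT N (fun n => c (n + 1)) with hg
    have hga : AnalyticAt ℂ g 0 := analyticAt_fT N _ hc'
    have hg0 : g 0 ≠ 0 := fT_ne_zero (by simpa using Rs_pos) N _ hc'
    have hgi : AnalyticAt ℂ g⁻¹ 0 := hga.inv hg0
    have h1 : fT (N + 1) c = (fun z : ℂ => ∑ i ∈ Finset.range (c 0), z ^ i)
        - (fun z => z ^ (c 0 - 1)) * g⁻¹ := by
      funext z
      simp only [fT, Pi.sub_apply, Pi.mul_apply, Pi.inv_apply, div_eq_mul_inv, hg]
    have h2 : tay g⁻¹ * tay g = 1 := by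
      rw [← tay_mul hgi hga, ← tay_one]
      apply tay_congr
      have : ∀ᶠ z in 𝓝 (0 : ℂ), g z ≠ 0 := hga.continuousAt.eventually_ne hg0
      filter_upwards [this] with z hz
      simp [hz]
    have h3 : (pTrunc N (fun n => c (n + 1))).map (algebraMap ℚ ℂ)
        * ((pTrunc N (fun n => c (n + 1)))⁻¹).map (algebraMap ℚ ℂ) = 1 := by
      rw [← map_mul, pTrunc_mul_inv N _ hc', map_one]
    rw [ih _ hc'] at h2
    have h4 : tay g⁻¹ = ((pTrunc N (fun n => c (n + 1)))⁻¹).map (algebraMap ℚ ℂ) :=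
      left_inv_eq_right_inv h2 h3
    rw [h1, tay_sub (analyticAt_sum _) ((by fun_prop : AnalyticAt ℂ (fun z : ℂ => z ^ (c 0 - 1)) 0).mul hgi),
      tay_mul (by fun_prop) hgi, tay_sum, tay_pow, h4]
    simp only [pTrunc, map_sub, map_mul, map_pow, PowerSeries.map_X]

lemma coeff_bound {r : ℝ} (hr0 : 0 < r) (hr : r < Rs) (N : ℕ) (c : ℕ → ℕ) (hc : ∀ n, 2 ≤ c n)
    (n : ℕ) : ‖((PowerSeries.coeff n (pTrunc N c) : ℚ) : ℂ)‖ ≤ 2 / r ^ n := by
  have h1 := congrArg (PowerSeries.coeff n) (tay_fT N c hc)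
  rw [PowerSeries.coeff_map, tay, PowerSeries.coeff_mk] at h1
  have h2 : DiffContOnCl ℂ (fT N c) (Metric.ball 0 r) := by
    apply DifferentiableOn.diffContOnCl
    intro z hz
    have hz' : ‖z‖ ≤ r := by
      have := Metric.closure_ball_subset_closedBall hz
      simpa using this
    exact (differentiableAt_fT (lt_of_le_of_lt hz' hr) N c hc).differentiableWithinAt
  have h3 : ∀ z ∈ Metric.sphere (0 : ℂ) r, ‖fT N c z‖ ≤ 2 := by
    intro z hz
    have hz' : ‖z‖ = r := by simpa using hz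
    have h4 := bound_fT' (by rw [hz']; exact hr : ‖z‖ < Rs) N c hc
    calc ‖fT N c z‖ = ‖1 + (fT N c z - 1)‖ := by congr 1; ring
      _ ≤ ‖(1 : ℂ)‖ + ‖fT N c z - 1‖ := norm_add_le _ _
      _ ≤ 2 := by rw [norm_one]; linarith
  have h5 := Complex.norm_iteratedDeriv_le_of_forall_mem_sphere_norm_le n hr0 h2 h3
  have h6 : (0 : ℝ) < n.factorial := by exact_mod_cast Nat.factorial_pos n
  have h7 : ((PowerSeries.coeff n (pTrunc N c) : ℚ) : ℂ) = iteratedDeriv n (fT N c) 0 / (n.factorial : ℂ) := by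
    rw [h1]; simp
  rw [h7, norm_div, Complex.norm_natCast, div_le_iff₀ h6]
  calc ‖iteratedDeriv n (fT N c) 0‖ ≤ n.factorial * 2 / r ^ n := h5
    _ = 2 / r ^ n * n.factorial := by ring

lemma coeff_bound_pLim {r : ℝ} (hr0 : 0 < r) (hr : r < Rs) (c : ℕ → ℕ) (hc : ∀ n, 2 ≤ c n)
    (n : ℕ) : ‖((PowerSeries.coeff n (pLim c) : ℚ) : ℂ)‖ ≤ 2 / r ^ n := by
  rw [pLim, PowerSeries.coeff_mk]
  exact coeff_bound hr0 hr n c hc n

lemma coeff_bound_Q {Q : ℝ → LaurentSeries ℚ} (hQ : IsQDeformation Q) {r : ℝ} (hr0 : 0 < r)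
    (hr : r < Rs) (m : ℕ) : ∀ x : ℝ, 1 ≤ x + m →
    ∃ C : ℝ, ∀ n : ℕ, ‖(((Q x).coeff (n : ℤ) : ℚ) : ℂ)‖ ≤ C / r ^ n := by
  induction m with
  | zero =>
    intro x hx
    have hx' : 1 ≤ x := by simpa using hx
    refine ⟨2, fun n => ?_⟩
    rw [hQ.eq_of_one_le hx', coeff_toL_nat]
    exact coeff_bound_pLim hr0 hr _ (two_le_dig hx') n
  | succ m ih =>
    intro x hx
    obtain ⟨C, hC⟩ := ih (x + 1) (by push_cast at hx; linarith)
    refine ⟨C / r, fun n => ?_⟩
    have h1 := hQ.shift (x + 1)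
    have e : x + 1 - 1 = x := by ring
    rw [e] at h1
    rw [h1, coeff_q_inv_mul, HahnSeries.coeff_sub]
    have h2 : (1 : LaurentSeries ℚ).coeff ((n : ℤ) + 1) = 0 := by
      rw [HahnSeries.coeff_one, if_neg (by omega)]
    rw [h2, sub_zero]
    have h3 := hC (n + 1)
    push_cast at h3
    refine h3.trans (le_of_eq ?_)
    rw [pow_succ]
    field_simp

/-- **Main theorem.** Every real `x ≥ 1` has exactly one infinite negative continued fraction
expansion, there is exactly one map `x ↦ [x]_q` obeying the defining rules of the q-deformed real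
numbers, and for every real `x` the radius of convergence of `[x]_q` is at least `(3 - √5) / 2`. -/
theorem result :
    (∀ x : ℝ, 1 ≤ x → ∃! c : ℕ → ℕ, IsExpansion x c) ∧
    (∃! Q : ℝ → LaurentSeries ℚ, IsQDeformation Q) ∧
    ∀ Q : ℝ → LaurentSeries ℚ, IsQDeformation Q →
      ∀ x : ℝ, ENNReal.ofReal ((3 - √5) / 2) ≤ radius (Q x) := by
  refine ⟨fun x hx => ⟨dig x, isExpansion_dig hx, fun c hc => hc.eq_dig⟩,
    ⟨Qdef, isQDeformation_Qdef, fun Q hQ => hQ.unique isQDeformation_Qdef⟩, ?_⟩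
  intro Q hQ x
  apply ENNReal.le_of_forall_nnreal_lt
  intro r hr
  have hr' : (r : ℝ) < Rs := by
    have h1 := hr
    rw [ENNReal.lt_ofReal_iff_toReal_lt ENNReal.coe_ne_top] at h1
    simpa [Rs] using h1
  rcases eq_or_lt_of_le (bot_le : 0 ≤ r) with h0 | h0
  · rw [← h0]
    simp
  · obtain ⟨m, hm⟩ := exists_nat_ge (1 - x)
    obtain ⟨C, hC⟩ := coeff_bound_Q hQ (by exact_mod_cast h0 : (0 : ℝ) < r) hr' m x (by linarith)
    apply FormalMultilinearSeries.le_radius_of_bound _ C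
    intro n
    rw [FormalMultilinearSeries.ofScalars_norm]
    have h1 := hC n
    have h2 : (0 : ℝ) < (r : ℝ) ^ n := pow_pos (by exact_mod_cast h0) n
    rwa [le_div_iff₀ h2] at h1

end Pool.Agent.Results.MP_b13893_an.RadiusBound
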